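import Pool.Agent.N984.DI.Stm

/-!
# Project DI of helper984, leaf DETS (helper928): the determinants
-/

set_option autoImplicit false
set_option linter.all false

namespace Pool.Agent.N928.DI

open Matrix Finset Pool.Agent.N984.DI
open scoped ComplexOrder

section
variable {ι : Type} [Fintype ι] [DecidableEq ι]

theorem dg_mul {U : Matrix ι ι ℂ} (hU : U ∈ Matrix.unitaryGroup ι ℂ) (x y : ι → ℝ) :
    dg U x * dg U y = dg U (fun i => x i * y i) := by
  have h1 : Uᴴ * U = 1 := by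
    have := Matrix.mem_unitaryGroup_iff'.1 hU
    rwa [Matrix.star_eq_conjTranspose] at this
  unfold dg
  calc U * diagonal (fun i => (x i : ℂ)) * Uᴴ * (U * diagonal (fun i => (y i : ℂ)) * Uᴴ)
      = U * diagonal (fun i => (x i : ℂ)) * (Uᴴ * U) * diagonal (fun i => (y i : ℂ)) * Uᴴ := by
        simp only [Matrix.mul_assoc]
    _ = _ := by
        rw [h1, Matrix.mul_one, Matrix.mul_assoc U, Matrix.diagonal_mul_diagonal]
        congr 3
        funext i
        push_cast
        rfl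

theorem dg_one {U : Matrix ι ι ℂ} (hU : U ∈ Matrix.unitaryGroup ι ℂ) :
    dg U (fun _ => 1) = 1 := by
  have h1 : U * Uᴴ = 1 := by
    have := Matrix.mem_unitaryGroup_iff.1 hU
    rwa [Matrix.star_eq_conjTranspose] at this
  unfold dg
  simp only [Complex.ofReal_one, Matrix.diagonal_one, Matrix.mul_one]
  exact h1

theorem dg_herm (U : Matrix ι ι ℂ) (x : ι → ℝ) : (dg U x).IsHermitian := by
  unfold dg Matrix.IsHermitian
  rw [Matrix.conjTranspose_mul, Matrix.conjTranspose_mul, Matrix.conjTranspose_conjTranspose,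
    Matrix.diagonal_conjTranspose, Matrix.mul_assoc]
  congr 3
  funext i
  simp

theorem conj_pd {C M : Matrix ι ι ℂ} (hC : C.PosDef) (hM : M.PosDef) : (C * M * C).PosDef := by
  have h1 := hM.conjTranspose_mul_mul_same (B := C)
    (Matrix.mulVec_injective_iff_isUnit.2 hC.isUnit)
  rwa [hC.1.eq] at h1

end

theorem posdef_dg {n : ℕ} {U : Matrix (Fin n) (Fin n) ℂ} (hU : U ∈ Matrix.unitaryGroup (Fin n) ℂ)
    {x : Fin n → ℝ} (hx : ∀ i, 0 < x i) : (dg U x).PosDef := by
  have h1 : U * Uᴴ = 1 := by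
    have := Matrix.mem_unitaryGroup_iff.1 hU
    rwa [Matrix.star_eq_conjTranspose] at this
  have hu : IsUnit U := IsUnit.of_mul_eq_one _ h1
  have hd : (Matrix.diagonal (fun i => (x i : ℂ))).PosDef := by
    rw [Matrix.posDef_diagonal_iff]
    intro i
    exact_mod_cast hx i
  exact hd.mul_mul_conjTranspose_same (Matrix.vecMul_injective_iff_isUnit.2 hu)

theorem spec (h1 : SPD) {n : ℕ} {A : Matrix (Fin n) (Fin n) ℂ} (hA : A.PosDef) :
    ∃ U ∈ Matrix.unitaryGroup (Fin n) ℂ, ∃ x : Fin n → ℝ, (∀ i, 0 < x i) ∧ A = dg U x := by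
  obtain ⟨U, hU, x, -, hx⟩ := h1 n A hA.1
  refine ⟨U, hU, x, ?_, hx⟩
  have h2 : Uᴴ * U = 1 := by
    have := Matrix.mem_unitaryGroup_iff'.1 hU
    rwa [Matrix.star_eq_conjTranspose] at this
  have hu : IsUnit U := IsUnit.of_mul_eq_one_right _ h2
  have h3 := hA.conjTranspose_mul_mul_same (B := U) (Matrix.mulVec_injective_iff_isUnit.2 hu)
  have h4 : Uᴴ * A * U = Matrix.diagonal (fun i => (x i : ℂ)) := by
    rw [hx]
    unfold dg
    calc Uᴴ * (U * diagonal (fun i => (x i : ℂ)) * Uᴴ) * U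
        = (Uᴴ * U) * diagonal (fun i => (x i : ℂ)) * (Uᴴ * U) := by simp only [Matrix.mul_assoc]
      _ = _ := by rw [h2, Matrix.one_mul, Matrix.mul_one]
  rw [h4, Matrix.posDef_diagonal_iff] at h3
  intro i
  exact_mod_cast h3 i

theorem mpow_dg (h0 : CFD) {n : ℕ} {U : Matrix (Fin n) (Fin n) ℂ}
    (hU : U ∈ Matrix.unitaryGroup (Fin n) ℂ) (x : Fin n → ℝ) (q : ℝ) :
    mpow (dg U x) q = dg U (fun i => x i ^ q) :=
  h0 (Fin n) U hU x (fun x => x ^ q)

theorem mpow_pd (h0 : CFD) (h1 : SPD) {n : ℕ} {A : Matrix (Fin n) (Fin n) ℂ} (hA : A.PosDef)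
    (q : ℝ) : (mpow A q).PosDef := by
  obtain ⟨U, hU, x, hx, rfl⟩ := spec h1 hA
  rw [mpow_dg h0 hU]
  exact posdef_dg hU fun i => Real.rpow_pos_of_pos (hx i) q

theorem mpow_add (h0 : CFD) (h1 : SPD) {n : ℕ} {A : Matrix (Fin n) (Fin n) ℂ} (hA : A.PosDef)
    (q r : ℝ) : mpow A q * mpow A r = mpow A (q + r) := by
  obtain ⟨U, hU, x, hx, rfl⟩ := spec h1 hA
  rw [mpow_dg h0 hU, mpow_dg h0 hU, mpow_dg h0 hU, dg_mul hU]
  congr 1
  funext i
  rw [Real.rpow_add (hx i)]

theorem mpow_zero' (h0 : CFD) (h1 : SPD) {n : ℕ} {A : Matrix (Fin n) (Fin n) ℂ} (hA : A.PosDef) :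
    mpow A 0 = 1 := by
  obtain ⟨U, hU, x, hx, rfl⟩ := spec h1 hA
  rw [mpow_dg h0 hU, ← dg_one hU]
  congr 1
  funext i
  rw [Real.rpow_zero]

theorem mpow_one' (h0 : CFD) (h1 : SPD) {n : ℕ} {A : Matrix (Fin n) (Fin n) ℂ} (hA : A.PosDef) :
    mpow A 1 = A := by
  obtain ⟨U, hU, x, hx, rfl⟩ := spec h1 hA
  rw [mpow_dg h0 hU]
  congr 1
  funext i
  rw [Real.rpow_one]

/-- **DETS** -/
theorem t_DETS (h0 : CFD) (h1 : SPD) : DETS := by
  intro n A B hA hB p
  have hBp := mpow_pd h0 h1 hB p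
  have hAu : IsUnit A.det := (Matrix.isUnit_iff_isUnit_det A).1 hA.isUnit
  have hAA : (B * (A * A) * B).PosDef := by
    refine conj_pd hB ?_
    have h := conj_pd hA (M := 1) Matrix.PosDef.one
    rwa [Matrix.mul_one] at h
  have hM := mpow_pd h0 h1 hAA (p / 2)
  refine ⟨?_, ?_, ?_, ?_⟩
  · exact conj_pd (mpow_pd h0 h1 hA _) hBp
  · exact conj_pd hA.inv hM
  · have e1 : A * A + mpow A p * mpow B p =
        A * (mpow A (p / 2) * (1 + XX A B p) * mpow A (1 - p / 2)) := by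
      have a1 : A * (mpow A (p / 2) * (1 : Matrix (Fin n) (Fin n) ℂ) * mpow A (1 - p / 2)) = A * A := by
        rw [Matrix.mul_one, mpow_add h0 h1 hA, show p / 2 + (1 - p / 2) = 1 by ring,
          mpow_one' h0 h1 hA]
      have a2 : A * (mpow A (p / 2) * XX A B p * mpow A (1 - p / 2)) = mpow A p * mpow B p := by
        unfold XX
        have b1 : A * (mpow A (p / 2) * (mpow A (p / 2 - 1) * mpow B p * mpow A (p / 2 - 1)) *
            mpow A (1 - p / 2)) = (mpow A 1 * (mpow A (p / 2) * mpow A (p / 2 - 1))) * mpow B p *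
              (mpow A (p / 2 - 1) * mpow A (1 - p / 2)) := by
          rw [mpow_one' h0 h1 hA]
          simp only [Matrix.mul_assoc]
        rw [b1, mpow_add h0 h1 hA, mpow_add h0 h1 hA, mpow_add h0 h1 hA,
          show p / 2 - 1 + (1 - p / 2) = 0 by ring, mpow_zero' h0 h1 hA, Matrix.mul_one,
          show 1 + (p / 2 + (p / 2 - 1)) = p by ring]
      rw [Matrix.mul_add, Matrix.add_mul, Matrix.mul_add, a1, a2]
    rw [e1, Matrix.det_mul, Matrix.det_mul, Matrix.det_mul]
    have e2 : (mpow A (p / 2)).det * (mpow A (1 - p / 2)).det = A.det := by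
      rw [← Matrix.det_mul, mpow_add h0 h1 hA, show p / 2 + (1 - p / 2) = 1 by ring,
        mpow_one' h0 h1 hA]
    calc A.det * ((mpow A (p / 2)).det * (1 + XX A B p).det * (mpow A (1 - p / 2)).det)
        = A.det * ((mpow A (p / 2)).det * (mpow A (1 - p / 2)).det) * (1 + XX A B p).det := by ring
      _ = A.det ^ 2 * (1 + XX A B p).det := by rw [e2]; ring
  · have e1 : A * A + mpow (B * (A * A) * B) (p / 2) = A * (1 + YY A B p) * A := by
      have a2 : A * YY A B p * A = mpow (B * (A * A) * B) (p / 2) := by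
        unfold YY
        calc A * (A⁻¹ * mpow (B * (A * A) * B) (p / 2) * A⁻¹) * A
            = (A * A⁻¹) * mpow (B * (A * A) * B) (p / 2) * (A⁻¹ * A) := by
              simp only [Matrix.mul_assoc]
          _ = _ := by
              rw [Matrix.mul_nonsing_inv A hAu, Matrix.nonsing_inv_mul A hAu, Matrix.one_mul,
                Matrix.mul_one]
      rw [Matrix.mul_add, Matrix.add_mul, a2, Matrix.mul_one]
    rw [e1, Matrix.det_mul, Matrix.det_mul]
    ring

end Pool.Agent.N928.DI
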