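import Pool.Agent.N928.DI.DETS

/-!
# Project DI of helper984, leaves SINA and ABS (helper928, second author)
-/

set_option autoImplicit false
set_option linter.all false

namespace Pool.Agent.N928.DI

open Matrix Finset Pool.Agent.N984.DI
open scoped ComplexOrder

theorem psd_dg {n : ℕ} (U : Matrix (Fin n) (Fin n) ℂ)
    {x : Fin n → ℝ} (hx : ∀ i, 0 ≤ x i) : (dg U x).PosSemidef := by
  have hd : (Matrix.diagonal (fun i => (x i : ℂ))).PosSemidef := by
    rw [Matrix.posSemidef_diagonal_iff]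
    intro i
    exact_mod_cast hx i
  exact hd.mul_mul_conjTranspose_same U

theorem spec0 (h1 : SPD) {n : ℕ} {A : Matrix (Fin n) (Fin n) ℂ} (hA : A.PosSemidef) :
    ∃ U ∈ Matrix.unitaryGroup (Fin n) ℂ, ∃ x : Fin n → ℝ, (∀ i, 0 ≤ x i) ∧ A = dg U x := by
  obtain ⟨U, hU, x, -, hx⟩ := h1 n A hA.1
  refine ⟨U, hU, x, ?_, hx⟩
  have h2 : Uᴴ * U = 1 := by
    have := Matrix.mem_unitaryGroup_iff'.1 hU
    rwa [Matrix.star_eq_conjTranspose] at this
  have h3 := hA.conjTranspose_mul_mul_same U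
  have h4 : Uᴴ * A * U = Matrix.diagonal (fun i => (x i : ℂ)) := by
    rw [hx]
    unfold dg
    calc Uᴴ * (U * diagonal (fun i => (x i : ℂ)) * Uᴴ) * U
        = (Uᴴ * U) * diagonal (fun i => (x i : ℂ)) * (Uᴴ * U) := by simp only [Matrix.mul_assoc]
      _ = _ := by rw [h2, Matrix.one_mul, Matrix.mul_one]
  rw [h4, Matrix.posSemidef_diagonal_iff] at h3
  intro i
  exact_mod_cast h3 i

theorem mpow_psd (h0 : CFD) (h1 : SPD) {n : ℕ} {A : Matrix (Fin n) (Fin n) ℂ} (hA : A.PosSemidef)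
    (q : ℝ) : (mpow A q).PosSemidef := by
  obtain ⟨U, hU, x, hx, rfl⟩ := spec0 h1 hA
  rw [mpow_dg h0 hU]
  exact psd_dg U fun i => Real.rpow_nonneg (hx i) q

theorem mpow_split (h0 : CFD) (h1 : SPD) {n : ℕ} {A : Matrix (Fin n) (Fin n) ℂ}
    (hA : A.PosSemidef) {p : ℝ} (hp : 0 ≤ p) (hp2 : p ≤ 2) :
    mpow A p * mpow A (2 - p) = A * A := by
  obtain ⟨U, hU, x, hx, rfl⟩ := spec0 h1 hA
  rw [mpow_dg h0 hU, mpow_dg h0 hU, dg_mul hU, dg_mul hU]
  congr 1
  funext i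
  rw [← Real.rpow_add_of_nonneg (hx i) hp (by linarith), show p + (2 - p) = (2 : ℕ) by norm_num,
    Real.rpow_natCast, pow_two]

theorem bab {n : ℕ} {A B : Matrix (Fin n) (Fin n) ℂ} (hA : A.PosSemidef) (hB : B.PosSemidef) :
    (A * B)ᴴ * (A * B) = B * (A * A) * B := by
  rw [Matrix.conjTranspose_mul, hA.1.eq, hB.1.eq]
  simp only [Matrix.mul_assoc]

theorem bab_psd {n : ℕ} {A B : Matrix (Fin n) (Fin n) ℂ} (hA : A.PosSemidef) (hB : B.PosSemidef) :
    (B * (A * A) * B).PosSemidef := by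
  rw [← bab hA hB]
  exact Matrix.posSemidef_conjTranspose_mul_self _

theorem aa_psd {n : ℕ} {A : Matrix (Fin n) (Fin n) ℂ} (hA : A.PosSemidef) :
    (A * A).PosSemidef := by
  have h := Matrix.posSemidef_conjTranspose_mul_self A
  rwa [hA.1.eq] at h

theorem fac (h0 : CFD) (h1 : SPD) {n : ℕ} {A : Matrix (Fin n) (Fin n) ℂ}
    (hA : A.PosSemidef) (B : Matrix (Fin n) (Fin n) ℂ) {p : ℝ} (hp : 0 ≤ p) (hp2 : p ≤ 2) :
    A * A + mpow A p * mpow B p = mpow A p * (mpow A (2 - p) + mpow B p) := by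
  rw [Matrix.mul_add, mpow_split h0 h1 hA hp hp2]

/-- **ABS** -/
theorem t_ABS (h0 : CFD) (h1 : SPD) : ABS := by
  intro n A B hA hB p hp hp2
  refine ⟨?_, ?_⟩
  · rw [bab hA hB]
    obtain ⟨U, hU, y, hy, hY⟩ := spec0 h1 (bab_psd hA hB)
    rw [hY, mpow_dg h0 hU, mpow_dg h0 hU, mpow_dg h0 hU]
    congr 1
    funext i
    rw [← Real.rpow_mul (hy i)]
    congr 1
    ring
  · rw [fac h0 h1 hA B hp hp2, Matrix.det_mul]
    exact mul_nonneg (mpow_psd h0 h1 hA p).det_nonneg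
      ((mpow_psd h0 h1 hA (2 - p)).add (mpow_psd h0 h1 hB p)).det_nonneg

theorem mpow_zero_all (h0 : CFD) (h1 : SPD) {n : ℕ} {A : Matrix (Fin n) (Fin n) ℂ}
    (hA : A.PosSemidef) : mpow A 0 = 1 := by
  obtain ⟨U, hU, x, hx, rfl⟩ := spec0 h1 hA
  rw [mpow_dg h0 hU, ← dg_one hU]
  congr 1
  funext i
  rw [Real.rpow_zero]

/-- **SINA** -/
theorem t_SINA (h0 : CFD) (h1 : SPD) : SINA := by
  intro n A B hA hB p hp hp2 hs
  by_cases hp0 : p = 0
  · subst hp0
    rw [mpow_zero_all h0 h1 hA, mpow_zero_all h0 h1 hB, zero_div,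
      mpow_zero_all h0 h1 (bab_psd hA hB), Matrix.mul_one]
  · have hnp : ¬ A.PosDef := hs.resolve_right hp0
    have hdet : (mpow A p).det = 0 := by
      obtain ⟨U, hU, x, hx, hAx⟩ := spec0 h1 hA
      have hex : ∃ i, x i = 0 := by
        by_contra hcon
        push Not at hcon
        apply hnp
        rw [hAx]
        exact posdef_dg hU fun i => lt_of_le_of_ne (hx i) (Ne.symm (hcon i))
      obtain ⟨i, hi⟩ := hex
      rw [hAx, mpow_dg h0 hU]
      unfold dg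
      rw [Matrix.det_mul, Matrix.det_mul, Matrix.det_diagonal]
      have : ∏ j, (((x j ^ p : ℝ)) : ℂ) = 0 := by
        refine Finset.prod_eq_zero (Finset.mem_univ i) ?_
        rw [hi, Real.zero_rpow hp0]
        simp
      rw [this]
      ring
    rw [fac h0 h1 hA B hp hp2, Matrix.det_mul, hdet, zero_mul]
    exact ((aa_psd hA).add (mpow_psd h0 h1 (bab_psd hA hB) (p / 2))).det_nonneg

end Pool.Agent.N928.DI
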