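import Pool.Agent.N984.DI.Stm

/-!
# Project DI of helper984, leaf SPD (helper928, second author): sorted spectral decomposition
-/

set_option autoImplicit false
set_option linter.all false
namespace Pool.Agent.N928.DI
open Matrix Finset Pool.Agent.N984.DI
open scoped ComplexOrder

theorem t_SPD : SPD := by
  intro n X hX
  classical
  set U0 : Matrix (Fin n) (Fin n) ℂ := (hX.eigenvectorUnitary : Matrix (Fin n) (Fin n) ℂ) with hU0
  set e : Fin n → ℝ := hX.eigenvalues with he
  have hspec : X = U0 * diagonal (fun i => (e i : ℂ)) * U0ᴴ := by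
    have := hX.spectral_theorem
    rw [Unitary.conjStarAlgAut_apply] at this
    exact this
  let σ : Equiv.Perm (Fin n) := Tuple.sort (fun i => - e i)
  have hmono : Monotone ((fun i => - e i) ∘ σ) := Tuple.monotone_sort _
  refine ⟨U0.submatrix id σ, ?_, fun i => e (σ i), ?_, ?_⟩
  · have h0 : U0 * U0ᴴ = 1 := by
      have := Matrix.mem_unitaryGroup_iff.1 hX.eigenvectorUnitary.2
      rwa [Matrix.star_eq_conjTranspose] at this
    rw [Matrix.mem_unitaryGroup_iff, Matrix.star_eq_conjTranspose, ← h0]
    ext i j
    simp only [Matrix.mul_apply, Matrix.submatrix_apply, Matrix.conjTranspose_apply, id]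
    exact Equiv.sum_comp σ (fun k => U0 i k * star (U0 j k))
  · intro i j hij
    have := hmono hij
    simp only [Function.comp] at this
    linarith
  · conv_lhs => rw [hspec]
    unfold dg
    ext i j
    simp only [Matrix.mul_apply, Matrix.submatrix_apply, Matrix.conjTranspose_apply, id,
      Matrix.diagonal_apply, mul_ite, mul_zero, Finset.sum_ite_eq', Finset.mem_univ, if_true]
    exact (Equiv.sum_comp σ (fun k => U0 i k * (e k : ℂ) * star (U0 j k))).symm

end Pool.Agent.N928.DI
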